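import Pool.Agent.T6.H74.ET.One

/-!
# The collapse threshold of the k-restricted ET0L hierarchy is 2

* Every ET0L system is equivalent to a 2-restricted one (`exists_two`). First, the system is
  simulated by a system in which each table rewrites one letter and kills at most two other letters
  (the modules `Build`, `Sound`, `Complete`, `Main`). Secondly (the module `Two`), for each letter
  `g` we add a companion `ḡ`, such that a word with `g` and `ḡ` is dead: the tables which rewrite
  `g` kill `ḡ`, and the table which erases `ḡ` kills `g`. A table which rewrites `x` and kills the
  letters `g₁, g₂` is then replaced by a table which rewrites `x`, adds the companions of `g₁` and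
  `g₂` and kills the companion of `x`; only `x` and its companion are active in it.
* The language of the words `a^n b^n c^n` is generated by an ET0L system, but by no 1-restricted
  one (`One`).
-/

set_option autoImplicit false

namespace Pool.Agent.Results.MP_4de4a9_lc.ThresholdTwo

open Pool.Agent.T6.H74.ET

/-- The least positive integer `ℓ` such that, for every `k ≥ ℓ`, the `k`-restricted and the
`(k + 1)`-restricted ET0L systems generate the same languages (over every finite terminal
alphabet) is `2`. -/
theorem result :
    IsLeast {l : ℕ | 1 ≤ l ∧
      ∀ k : ℕ, l ≤ k → ∀ (T : Type) [Finite T], Family k T = Family (k + 1) T} 2 := by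
  refine ⟨⟨by norm_num, fun k hk T _ => family_eq_two hk⟩, ?_⟩
  rintro l ⟨h1, h2⟩
  by_contra h
  have h3 : l ≤ 1 := by omega
  exact family_one_ne_two (h2 1 h3 (Fin 3))

end Pool.Agent.Results.MP_4de4a9_lc.ThresholdTwo
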